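import Mathlib
import Pool.Agent.E07280.Final

/-!
# Unital subring counts of `ℤ^n` are not all polynomial in `p`

For some `n ≥ 5` and `e ≥ 1` no rational polynomial `P` satisfies `f_n(p^e) = P(p)` for all primes
`p`, where `f_n(k)` is the number of unital subrings of `ℤ^n` of index `k`.

Outline (files `Pool/Agent/E07280/`): if all `f_n(p^e)`, `n ≥ 5`, were polynomials, then the number of
ordered 9-tuples of points of the affine plane over `F_p` lying on no cubic through the origin would
be a rational function of `p`. Elementary counting turns this into a sum over the curves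
`y² = x³ + Ax + B` of `(p² - 9p + 36) C(N,10) - 12 C(N-1,9)`, `N` the number of projective points,
which would then be a polynomial in `p` of degree at most 14; its values at the 16 primes
`17, ..., 79` contradict this.
-/

namespace Pool.Agent.Results.MP_e07280_nt.NotPolynomial

/-- There are `n ≥ 5` and `e ≥ 1` such that no polynomial with rational coefficients agrees with
`p ↦ #{unital subrings of ℤ^n of index p^e}` at every prime `p`. -/
theorem result : ∃ n : ℕ, 5 ≤ n ∧ ∃ e : ℕ, 1 ≤ e ∧ ¬ ∃ P : Polynomial ℚ, ∀ p : ℕ, p.Prime →
    (Nat.card {Λ : Subring (Fin n → ℤ) // Λ.toAddSubgroup.index = p ^ e} : ℚ) =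
      P.eval (p : ℚ) :=
  Pool.Agent.E07280.disproof

end Pool.Agent.Results.MP_e07280_nt.NotPolynomial
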